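import Pool.Agent.W770.PC.Stms

/-!
Project PC, part PC-cell: the cells have bounded overlap and lie in `Om`.
-/

set_option autoImplicit false

namespace Pool.Agent.W991.PC

open MeasureTheory Set Filter Topology Pool.Agent.W770.PC
open scoped ENNReal NNReal

theorem mem_cell1 {a : ℕ} {n : ℕ} {x : ℝ} :
    x ∈ Icc (((n : ℝ) - 1) / 2 ^ a) (((n : ℝ) + 1) / 2 ^ a) ↔ |2 ^ a * x - n| ≤ 1 := by
  have h2 : (0 : ℝ) < 2 ^ a := by positivity
  rw [mem_Icc, div_le_iff₀ h2, le_div_iff₀ h2, abs_le]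
  constructor
  · rintro ⟨h3, h4⟩
    exact ⟨by linarith, by linarith⟩
  · rintro ⟨h3, h4⟩
    exact ⟨by linarith, by linarith⟩

theorem mem_cell {a : ℕ} {k : ℕ × ℕ} {y : ℝ × ℝ} :
    y ∈ cell a k ↔ |2 ^ a * y.1 - k.1| ≤ 1 ∧ |2 ^ a * y.2 - k.2| ≤ 1 := by
  unfold cell
  rw [mem_prod, mem_cell1, mem_cell1]

theorem cell_sub {a : ℕ} {k : ℕ × ℕ} (hk : k ∈ grid a) : cell a k ⊆ Om := by
  intro y hy
  rw [mem_cell] at hy
  unfold grid at hk
  rw [Finset.mem_product, Finset.mem_range, Finset.mem_range] at hk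
  have h2 : (1 : ℝ) ≤ 2 ^ a := one_le_pow₀ (by norm_num)
  have h20 : (0 : ℝ) < 2 ^ a := by positivity
  have key : ∀ (n : ℕ) (x : ℝ), n < 2 ^ a + 1 → |2 ^ a * x - n| ≤ 1 → x ∈ Icc (-1 : ℝ) 2 := by
    intro n x hn hx
    have h3 : (n : ℝ) ≤ 2 ^ a := by exact_mod_cast Nat.lt_succ_iff.1 hn
    rw [abs_le] at hx
    have h4 : (0 : ℝ) ≤ n := Nat.cast_nonneg n
    constructor
    · by_contra h
      push Not at h
      nlinarith
    · by_contra h
      push Not at h
      nlinarith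
  exact ⟨key _ _ hk.1 hy.1, key _ _ hk.2 hy.2⟩

theorem card_le_three (A : Finset ℕ) (x : ℝ) (h : ∀ n ∈ A, |x - n| ≤ 1) : A.card ≤ 3 := by
  have hsub : A ⊆ Finset.Icc ⌈x - 1⌉₊ (⌈x - 1⌉₊ + 2) := by
    intro n hn
    have h1 := abs_le.1 (h n hn)
    rw [Finset.mem_Icc]
    constructor
    · exact Nat.ceil_le.2 (by linarith)
    · have h2 := Nat.le_ceil (x - 1)
      have h3 : (n : ℝ) ≤ ((⌈x - 1⌉₊ + 2 : ℕ) : ℝ) := by push_cast; linarith
      exact_mod_cast h3
  have := Finset.card_le_card hsub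
  rw [Nat.card_Icc] at this
  omega

open Classical in
theorem card_le_nine (a : ℕ) (S : Finset (ℕ × ℕ)) (y : ℝ × ℝ) :
    (S.filter (fun k => y ∈ cell a k)).card ≤ 9 := by
  set B := S.filter (fun k => y ∈ cell a k) with hB
  have hsub : B ⊆ (B.image Prod.fst) ×ˢ (B.image Prod.snd) := by
    intro k hk
    rw [Finset.mem_product]
    exact ⟨Finset.mem_image_of_mem _ hk, Finset.mem_image_of_mem _ hk⟩
  have h1 : (B.image Prod.fst).card ≤ 3 := by
    refine card_le_three _ (2 ^ a * y.1) ?_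
    intro n hn
    obtain ⟨k, hk, rfl⟩ := Finset.mem_image.1 hn
    exact (mem_cell.1 (Finset.mem_filter.1 hk).2).1
  have h2 : (B.image Prod.snd).card ≤ 3 := by
    refine card_le_three _ (2 ^ a * y.2) ?_
    intro n hn
    obtain ⟨k, hk, rfl⟩ := Finset.mem_image.1 hn
    exact (mem_cell.1 (Finset.mem_filter.1 hk).2).2
  have h3 := Finset.card_le_card hsub
  rw [Finset.card_product] at h3
  have h4 := Nat.mul_le_mul h1 h2
  omega

theorem cell_meas (a : ℕ) (k : ℕ × ℕ) : MeasurableSet (cell a k) :=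
  measurableSet_Icc.prod measurableSet_Icc

theorem cell_thm : S_cell := by
  refine ⟨fun a k hk => cell_sub hk, ?_, ?_, ?_⟩
  · intro a k
    unfold cell
    rw [Measure.volume_eq_prod, Measure.prod_prod, Real.volume_Icc, Real.volume_Icc,
      ← ENNReal.ofReal_mul (by
        rw [← sub_div]
        have : ((k.1 : ℝ) + 1 - (k.1 - 1)) = 2 := by ring
        rw [this]
        positivity)]
    congr 1
    rw [← sub_div, ← sub_div]
    have h4 : (4 : ℝ) ^ a = 2 ^ a * 2 ^ a := by
      rw [← mul_pow]; norm_num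
    rw [h4]
    field_simp
    ring
  · intro a k y h1 h2
    exact mem_cell.2 ⟨h1, h2⟩
  · intro a S hS f hf
    classical
    have h1 : ∀ k ∈ S, ∫⁻ y in cell a k, f y = ∫⁻ y in Om, (cell a k).indicator f y := by
      intro k hk
      rw [lintegral_indicator (cell_meas a k), Measure.restrict_restrict (cell_meas a k),
        inter_eq_left.2 (cell_sub (hS hk))]
    rw [Finset.sum_congr rfl h1, ← lintegral_finsetSum _ fun k _ => hf.indicator (cell_meas a k),
      ← lintegral_const_mul _ hf]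
    refine lintegral_mono fun y => ?_
    have h2 : ∑ k ∈ S, (cell a k).indicator f y = ((S.filter (fun k => y ∈ cell a k)).card : ℝ≥0∞) * f y := by
      have h3 : ∀ k ∈ S, (cell a k).indicator f y = if y ∈ cell a k then f y else 0 := by
        intro k _
        rw [Set.indicator_apply]
      rw [Finset.sum_congr rfl h3, ← Finset.sum_filter, Finset.sum_const, nsmul_eq_mul]
    rw [h2]
    refine mul_le_mul_left ?_ (f y)
    exact_mod_cast card_le_nine a S y

end Pool.Agent.W991.PC
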